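import Pool.Agent.X268.LF.One

/-!
# Lifting cohomologically trivial cycles orthogonally to the fibral cycles
-/

set_option autoImplicit false
set_option linter.unusedSectionVars false

namespace Pool.Agent.X268.LF

open Pool.Agent.X268.SR Module

universe u v

section

variable {R₁ R₂ R₃ : Type u} [CommRing R₁] [Algebra ℚ R₁] [CommRing R₂] [Algebra ℚ R₂]
  [CommRing R₃] [Algebra ℚ R₃]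

variable [Module.Finite ℚ R₁] [Module.Finite ℚ R₂] [Module.Finite ℚ R₃] {m k : ℕ}
  {gr₁ : ℕ → Submodule ℚ R₁} {deg₁ : R₁ →ₗ[ℚ] ℚ} {D₁ : R₁}
  {gr₂ : ℕ → Submodule ℚ R₂} {deg₂ : R₂ →ₗ[ℚ] ℚ} {D₂ : R₂}
  {gr₃ : ℕ → Submodule ℚ R₃} {deg₃ : R₃ →ₗ[ℚ] ℚ} {D₃ : R₃}
  {ρ₁ : R₁ →ₗ[ℚ] R₂} {ρ₂ : R₂ →ₗ[ℚ] R₃} {γ₁ : R₂ →ₗ[ℚ] R₁} {γ₂ : R₃ →ₗ[ℚ] R₂}

/-- All cases. -/
theorem exists_vertical_all (n₁ : IsNumRing (k + 2) gr₁ deg₁ D₁) (n₂ : IsNumRing (k + 1) gr₂ deg₂ D₂)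
    (H₁ : IsHodgeIndexUpTo m (k + 2) gr₁ deg₁ D₁) (H₂ : IsHodgeIndexUpTo m (k + 1) gr₂ deg₂ D₂)
    (hS : IsStrata gr₁ deg₁ D₁ gr₂ deg₂ D₂ gr₃ deg₃ D₃ ρ₁ ρ₂ γ₁ γ₂) (hm : 1 ≤ m) {i : ℕ}
    (hi : k + 1 ≤ i ∨ k + 1 ≤ 2 * m) {a : R₁} (ha : a ∈ gr₁ i)
    (hc : ρ₁ a = 0) (ho : ∀ y, ρ₁ y = 0 → deg₁ (a * y) = 0) :
    a = 0 ∨ ∃ j, i = j + 1 ∧ ∃ x ∈ gr₁ j, a = γ₁ (ρ₁ x) := by
  by_cases hik : k + 2 < i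
  · exact Or.inl (n₁.ring.bound hik ha)
  obtain ⟨r, hr⟩ : ∃ r, i + r = k + 2 := ⟨k + 2 - i, by omega⟩
  have hkey : ∀ w ∈ gr₁ r, γ₁ (ρ₁ w) = 0 → ∃ u : R₂, ρ₁ (w - γ₁ u) = 0 := by
    intro w hw h0
    by_cases hk : k + 1 ≤ 2 * m
    · exact exists_closed n₁ (isLHR n₁ H₁ (by omega)) (isLHR n₂ H₂ (by omega)) hS hw h0
    · have hi' : k + 1 ≤ i := hi.resolve_right hk
      rcases r with _ | r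
      · refine ⟨0, ?_⟩
        rw [map_zero, sub_zero]
        exact exists_closed_zero n₁ n₂ hS H₂ hw h0
      · obtain rfl : r = 0 := by omega
        obtain ⟨l, rfl⟩ : ∃ l, k = l + 1 := ⟨k - 1, by omega⟩
        exact exists_closed_one n₁ n₂ hS hm H₁ H₂ hw h0
  rcases exists_vertical n₁ n₂ hS hr hkey ha hc ho with h | h
  · exact Or.inl h.2
  · exact Or.inr h

end

variable {S : Type} [Fintype S] {Z Z' A A' W : Type v} [AddCommGroup Z] [Module ℚ Z]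
  [AddCommGroup Z'] [Module ℚ Z'] [AddCommGroup A] [Module ℚ A] [AddCommGroup A'] [Module ℚ A']
  [AddCommGroup W] [Module ℚ W]
  {R₁ R₂ R₃ : S → Type u} [∀ v, CommRing (R₁ v)] [∀ v, Algebra ℚ (R₁ v)]
  [∀ v, CommRing (R₂ v)] [∀ v, Algebra ℚ (R₂ v)] [∀ v, CommRing (R₃ v)] [∀ v, Algebra ℚ (R₃ v)]
  [∀ v, Module.Finite ℚ (R₁ v)] [∀ v, Module.Finite ℚ (R₂ v)] [∀ v, Module.Finite ℚ (R₃ v)]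
  {k m N i : ℕ} {q : S → ℕ}
  {gr₁ : ∀ v, ℕ → Submodule ℚ (R₁ v)} {deg₁ : ∀ v, R₁ v →ₗ[ℚ] ℚ} {D₁ : ∀ v, R₁ v}
  {gr₂ : ∀ v, ℕ → Submodule ℚ (R₂ v)} {deg₂ : ∀ v, R₂ v →ₗ[ℚ] ℚ} {D₂ : ∀ v, R₂ v}
  {gr₃ : ∀ v, ℕ → Submodule ℚ (R₃ v)} {deg₃ : ∀ v, R₃ v →ₗ[ℚ] ℚ} {D₃ : ∀ v, R₃ v}
  {ρ₁ : ∀ v, R₁ v →ₗ[ℚ] R₂ v} {ρ₂ : ∀ v, R₂ v →ₗ[ℚ] R₃ v}
  {γ₁ : ∀ v, R₂ v →ₗ[ℚ] R₁ v} {γ₂ : ∀ v, R₃ v →ₗ[ℚ] R₂ v}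
  {η : Z →ₗ[ℚ] A} {η' : Z' →ₗ[ℚ] A'} {σ : ∀ v, Z' →ₗ[ℚ] R₁ v}
  {GS : Z →ₗ[ℚ] W →ₗ[ℚ] ℝ} {pull : A →ₗ[ℚ] A'} {pushA : A' →ₗ[ℚ] A} {push : Z' →ₗ[ℚ] Z}

/-- Lifting on the semistable model. -/
theorem exists_lift_semistable (n₁ : ∀ v, IsNumRing (k + 2) (gr₁ v) (deg₁ v) (D₁ v))
    (n₂ : ∀ v, IsNumRing (k + 1) (gr₂ v) (deg₂ v) (D₂ v))
    (H₁ : ∀ v, IsHodgeIndexUpTo m (k + 2) (gr₁ v) (deg₁ v) (D₁ v))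
    (H₂ : ∀ v, IsHodgeIndexUpTo m (k + 1) (gr₂ v) (deg₂ v) (D₂ v))
    (hS : ∀ v, IsStrata (gr₁ v) (deg₁ v) (D₁ v) (gr₂ v) (deg₂ v) (D₂ v) (gr₃ v) (deg₃ v) (D₃ v)
      (ρ₁ v) (ρ₂ v) (γ₁ v) (γ₂ v))
    (hM : IsSemistableModel i gr₁ deg₁ ρ₁ γ₁ η' σ) (hm : 1 ≤ m)
    (hi : k + 1 ≤ i ∨ k + 1 ≤ 2 * m) (a : A') : ∃ z, η' z = a ∧ ∀ v, σ v z = 0 := by
  classical
  obtain ⟨z, hza⟩ := hM.surjective a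
  have hy : ∀ v, ∃ y, η' y = 0 ∧ σ v y = σ v z ∧ ∀ v', v' ≠ v → σ v' y = 0 := by
    intro v
    rcases exists_vertical_all (n₁ v) (n₂ v) (H₁ v) (H₂ v) (hS v) hm hi (hM.special_mem v z)
      (hM.closed v z) (hM.orthogonal v z) with h0 | ⟨j, hj, x, hx, hx'⟩
    · exact ⟨0, map_zero _, by rw [map_zero, h0], fun v' _ => map_zero _⟩
    · obtain ⟨y, hy0, hy1, hy2⟩ := hM.vertical v j hj.symm x hx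
      exact ⟨y, hy0, by rw [hy1, hx'], hy2⟩
  choose y hy0 hy1 hy2 using hy
  refine ⟨z - ∑ v, y v, ?_, fun v => ?_⟩
  · rw [map_sub, map_sum, hza, Finset.sum_eq_zero fun v _ => hy0 v, sub_zero]
  · rw [map_sub, map_sum, Finset.sum_eq_single v (fun v' _ hv' => hy2 v' v (Ne.symm hv'))
      (fun h => absurd (Finset.mem_univ v) h), hy1, sub_self]

/-- **Lifting orthogonally to the fibral cycles.** -/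
theorem exists_lift (n₁ : ∀ v, IsNumRing (k + 2) (gr₁ v) (deg₁ v) (D₁ v))
    (n₂ : ∀ v, IsNumRing (k + 1) (gr₂ v) (deg₂ v) (D₂ v))
    (H₁ : ∀ v, IsHodgeIndexUpTo m (k + 2) (gr₁ v) (deg₁ v) (D₁ v))
    (H₂ : ∀ v, IsHodgeIndexUpTo m (k + 1) (gr₂ v) (deg₂ v) (D₂ v))
    (hS : ∀ v, IsStrata (gr₁ v) (deg₁ v) (D₁ v) (gr₂ v) (deg₂ v) (D₂ v) (gr₃ v) (deg₃ v) (D₃ v)
      (ρ₁ v) (ρ₂ v) (γ₁ v) (γ₂ v))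
    (hM : IsSemistableModel i gr₁ deg₁ ρ₁ γ₁ η' σ)
    (hf : IsAlteration N q deg₁ η η' σ GS pull pushA push) (hm : 1 ≤ m)
    (hi : k + 1 ≤ i ∨ k + 1 ≤ 2 * m) (a : A) : ∃ z, η z = a ∧ ∀ w, GS z w = 0 := by
  obtain ⟨z, hza, hz0⟩ := exists_lift_semistable n₁ n₂ H₁ H₂ hS hM hm hi (pull a)
  have hN : (N : ℚ) ≠ 0 := Nat.cast_ne_zero.2 hf.degree
  refine ⟨(N : ℚ)⁻¹ • push z, ?_, fun w => ?_⟩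
  · rw [map_smul, hf.push_generic, hza, hf.push_pull, smul_smul, inv_mul_cancel₀ hN, one_smul]
  · obtain ⟨x, hx⟩ := hf.projection w
    rw [map_smul, LinearMap.smul_apply, hx z, Finset.sum_eq_zero, smul_zero]
    intro v _
    rw [hz0, zero_mul, map_zero, Rat.cast_zero, mul_zero]

end Pool.Agent.X268.LF
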