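import Pool.Agent.X268.SR.Stm

/-!
# Regular models, alterations and the cycles on the strata of a semistable fibre
-/

set_option autoImplicit false

namespace Pool.Agent.X268.LF

open Pool.Agent.X268.SR

universe u v

/-- The ring `R` of algebraic cycles modulo numerical equivalence on a smooth projective scheme `Y` of pure
dimension `n` over a finite field (not necessarily connected: the product of the rings of the
components), with the ample divisor class `D`. -/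
structure IsNumRing {R : Type u} [CommRing R] [Algebra ℚ R] (n : ℕ) (gr : ℕ → Submodule ℚ R)
    (deg : R →ₗ[ℚ] ℚ) (D : R) : Prop where
  ring : IsGradedRing n gr deg D
  nondeg : ∀ i, i ≤ n → ∀ z ∈ gr i, (∀ w ∈ gr (n - i), deg (z * w) = 0) → z = 0

/-- The Hodge index theorem in codimension at most `m`. -/
def IsHodgeIndexUpTo {R : Type u} [CommRing R] [Algebra ℚ R] (m n : ℕ) (gr : ℕ → Submodule ℚ R)
    (deg : R →ₗ[ℚ] ℚ) (D : R) : Prop :=
  ∀ j, j ≤ m → 2 * j ≤ n → ∀ z ∈ gr j, D ^ (n - 2 * j + 1) * z = 0 → z ≠ 0 →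
    0 < (-1) ^ j * deg (z * z * D ^ (n - 2 * j))

/-- The rational vector space `Z` of the cycle classes of codimension `i` on a strictly semistable model of
`X` with cohomologically trivial restriction to `X`, and the restrictions `η` to `X` and `σ v` to the
components of the semistable fibres at the places `v` in `S`. -/
structure IsSemistableModel {S : Type} {Z A : Type v} [AddCommGroup Z] [Module ℚ Z]
    [AddCommGroup A] [Module ℚ A] {R₁ R₂ : S → Type u} [∀ v, CommRing (R₁ v)]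
    [∀ v, Algebra ℚ (R₁ v)] [∀ v, CommRing (R₂ v)] [∀ v, Algebra ℚ (R₂ v)] (i : ℕ)
    (gr₁ : ∀ v, ℕ → Submodule ℚ (R₁ v)) (deg₁ : ∀ v, R₁ v →ₗ[ℚ] ℚ)
    (ρ₁ : ∀ v, R₁ v →ₗ[ℚ] R₂ v) (γ₁ : ∀ v, R₂ v →ₗ[ℚ] R₁ v) (η : Z →ₗ[ℚ] A)
    (σ : ∀ v, Z →ₗ[ℚ] R₁ v) : Prop where
  surjective : ∀ a, ∃ z, η z = a
  special_mem : ∀ v z, σ v z ∈ gr₁ v i
  closed : ∀ v z, ρ₁ v (σ v z) = 0
  orthogonal : ∀ v z y, ρ₁ v y = 0 → deg₁ v (σ v z * y) = 0
  vertical : ∀ v j, j + 1 = i → ∀ x ∈ gr₁ v j, ∃ y, η y = 0 ∧ σ v y = γ₁ v (ρ₁ v x) ∧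
    ∀ v', v' ≠ v → σ v' y = 0

/-- An alteration of degree `N` of a regular proper flat model of `X` by a strictly semistable model of `X'`:
the cycle classes `Z` and `Z'` of codimension `i` on the models and `A` and `A'` on `X` and `X'` (those with
cohomologically trivial restriction to `X` or `X'`), the space `W` of the classes of fibral cycles of
complementary codimension on the model of `X`, the pairing `GS`, the pullback and the pushforwards. -/
structure IsAlteration {S : Type} [Fintype S] {Z Z' A A' W : Type v} [AddCommGroup Z] [Module ℚ Z]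
    [AddCommGroup Z'] [Module ℚ Z'] [AddCommGroup A] [Module ℚ A] [AddCommGroup A'] [Module ℚ A']
    [AddCommGroup W] [Module ℚ W] {R₁ : S → Type u} [∀ v, CommRing (R₁ v)] [∀ v, Algebra ℚ (R₁ v)]
    (N : ℕ) (q : S → ℕ) (deg₁ : ∀ v, R₁ v →ₗ[ℚ] ℚ) (η : Z →ₗ[ℚ] A) (η' : Z' →ₗ[ℚ] A')
    (σ : ∀ v, Z' →ₗ[ℚ] R₁ v) (GS : Z →ₗ[ℚ] W →ₗ[ℚ] ℝ)
    (pull : A →ₗ[ℚ] A') (pushA : A' →ₗ[ℚ] A) (push : Z' →ₗ[ℚ] Z) : Prop where
  degree : N ≠ 0
  push_pull : ∀ a, pushA (pull a) = (N : ℚ) • a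
  push_generic : ∀ z, η (push z) = pushA (η' z)
  projection : ∀ w, ∃ x : ∀ v, R₁ v, ∀ z,
    GS (push z) w = ∑ v, Real.log (q v) * (deg₁ v (σ v z * x v) : ℝ)

end Pool.Agent.X268.LF
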