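import Pool.Agent.X268.SR.Har
import Pool.Agent.X268.LF.Stm

/-!
# Lifting cycles orthogonally to the fibral cycles
-/

set_option autoImplicit false
set_option linter.unusedSectionVars false

namespace Pool.Agent.X268.LF

open Pool.Agent.X268.SR Module

universe u v

/-- Functionals vanishing on the kernel of a pairing. -/
theorem exists_rep {V W : Type*} [AddCommGroup V] [Module ℚ V] [AddCommGroup W] [Module ℚ W]
    [Module.Finite ℚ W] (f : V →ₗ[ℚ] Module.Dual ℚ W) (ψ : Module.Dual ℚ V)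
    (h : ∀ v, f v = 0 → ψ v = 0) : ∃ x : W, ∀ v, ψ v = f v x := by
  have h1 : ψ ∈ (LinearMap.ker f).dualAnnihilator := by
    rw [Submodule.mem_dualAnnihilator]
    exact fun v hv => h v (LinearMap.mem_ker.1 hv)
  rw [← LinearMap.range_dualMap_eq_dualAnnihilator_ker] at h1
  obtain ⟨Ψ, hΨ⟩ := h1
  refine ⟨(Module.evalEquiv ℚ W).symm Ψ, fun v => ?_⟩
  rw [← hΨ, LinearMap.dualMap_apply]
  have h2 := (Module.evalEquiv ℚ W).apply_symm_apply Ψ
  conv_lhs => rw [← h2]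
  rfl

section one

variable {R : Type u} [CommRing R] [Algebra ℚ R] [Module.Finite ℚ R] {m n : ℕ}
  {gr : ℕ → Submodule ℚ R} {deg : R →ₗ[ℚ] ℚ} {D : R}

/-- The multiplication with `D ^ (n - 2 j)` is injective on the classes of codimension `j`. -/
theorem pow_injective (hH : IsHodgeIndexUpTo m n gr deg D) {j : ℕ} (hjm : j ≤ m) (hj : 2 * j ≤ n)
    {z : R} (hz : z ∈ gr j) (h0 : D ^ (n - 2 * j) * z = 0) : z = 0 := by
  by_contra hne
  have h1 := hH j hjm hj z hz (by rw [pow_succ', mul_assoc, h0, mul_zero]) hne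
  rw [mul_assoc, mul_comm z (D ^ _), h0, mul_zero, map_zero, mul_zero] at h1
  exact lt_irrefl _ h1

/-- The dimensions of complementary degrees agree. -/
theorem finrank_le (h : IsNumRing n gr deg D) {j : ℕ} (hj : j ≤ n) :
    finrank ℚ (gr j) ≤ finrank ℚ (gr (n - j)) := by
  let f : gr j →ₗ[ℚ] Module.Dual ℚ (gr (n - j)) :=
    LinearMap.mk₂ ℚ (fun x y => deg ((x : R) * y))
      (by intro a b c; simp only [Submodule.coe_add, add_mul, map_add])
      (by intro c a b; simp only [Submodule.coe_smul, smul_mul_assoc, map_smul])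
      (by intro a b c; simp only [Submodule.coe_add, mul_add, map_add])
      (by intro c a b; simp only [Submodule.coe_smul, mul_smul_comm, map_smul])
  have hf : Function.Injective f := by
    rw [injective_iff_map_eq_zero]
    intro x hx
    refine Subtype.ext (h.nondeg j hj x x.2 fun w hw => ?_)
    exact LinearMap.congr_fun hx ⟨w, hw⟩
  have h1 := LinearMap.finrank_le_finrank_of_injective hf
  rwa [Subspace.dual_finrank_eq] at h1

/-- The Lefschetz condition. -/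
theorem pow_surjective (h : IsNumRing n gr deg D) (hH : IsHodgeIndexUpTo m n gr deg D) {j : ℕ}
    (hjm : j ≤ m) (hj : 2 * j ≤ n) {z : R} (hz : z ∈ gr (n - j)) :
    ∃ z' ∈ gr j, D ^ (n - 2 * j) * z' = z := by
  let f : gr j →ₗ[ℚ] gr (n - j) := (LinearMap.mulLeft ℚ (D ^ (n - 2 * j))).restrict fun x hx => by
    have h1 := h.ring.pow_mul_mem (n - 2 * j) hx
    rwa [show j + (n - 2 * j) = n - j by omega] at h1
  have hf : Function.Injective f := by
    rw [injective_iff_map_eq_zero]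
    intro x hx
    exact Subtype.ext (pow_injective hH hjm hj x.2 (congrArg Subtype.val hx))
  have h1 := finrank_le h (show j ≤ n by omega)
  have h2 := finrank_le h (show n - j ≤ n by omega)
  rw [show n - (n - j) = j by omega] at h2
  have h3 : Function.Surjective f :=
    (LinearMap.injective_iff_surjective_of_finrank_eq_finrank (le_antisymm h1 h2)).1 hf
  obtain ⟨x, hx⟩ := h3 ⟨z, hz⟩
  exact ⟨x, x.2, congrArg Subtype.val hx⟩

/-- **The Lefschetz condition** follows from the nondegeneracy and the Hodge index theorem. -/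
theorem isLHR (h : IsNumRing n gr deg D) (hH : IsHodgeIndexUpTo m n gr deg D) (hn : n ≤ 2 * m + 1) :
    IsLHR n gr deg D :=
  ⟨h.ring, fun _ hj _ hz => pow_surjective h hH (by omega) hj hz,
    fun j hj => hH j (by omega) hj⟩

/-- Nondegeneracy of the pairing on the whole ring. -/
theorem eq_zero_of_deg (h : IsNumRing n gr deg D) {i : ℕ} {y : R} (hy : y ∈ gr i)
    (h0 : ∀ x, deg (x * y) = 0) : y = 0 := by
  by_cases hi : i ≤ n
  · exact h.nondeg i hi y hy fun w _ => by rw [mul_comm]; exact h0 w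
  · exact h.ring.bound (by omega) hy

/-- The primitive decomposition of divisor classes. -/
theorem exists_L (h : IsNumRing n gr deg D) (hH : IsHodgeIndexUpTo m n gr deg D) (hn : 1 ≤ n) :
    ∃ L : gr 1 →ₗ[ℚ] R, ∀ b : gr 1, L b ∈ gr 0 ∧ D ^ n * L b = D ^ (n - 1) * (b : R) := by
  let f : gr 0 →ₗ[ℚ] gr n := (LinearMap.mulLeft ℚ (D ^ n)).restrict fun x hx => by
    have h1 := h.ring.pow_mul_mem n hx
    rwa [zero_add] at h1
  let g : gr 1 →ₗ[ℚ] gr n := (LinearMap.mulLeft ℚ (D ^ (n - 1))).restrict fun x hx => by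
    have h1 := h.ring.pow_mul_mem (n - 1) hx
    rwa [show 1 + (n - 1) = n by omega] at h1
  have hf : Function.Bijective f := by
    refine ⟨?_, ?_⟩
    · rw [injective_iff_map_eq_zero]
      intro x hx
      exact Subtype.ext (pow_injective hH (j := 0) (Nat.zero_le _) (Nat.zero_le _) x.2
        (congrArg Subtype.val hx))
    · intro z
      obtain ⟨z', hz', he⟩ := pow_surjective h hH (j := 0) (Nat.zero_le _) (Nat.zero_le _) z.2
      exact ⟨⟨z', hz'⟩, Subtype.ext he⟩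
  let E := LinearEquiv.ofBijective f hf
  refine ⟨(gr 0).subtype ∘ₗ E.symm.toLinearMap ∘ₗ g, fun b => ⟨(E.symm (g b)).2, ?_⟩⟩
  exact congrArg Subtype.val (E.apply_symm_apply (g b))

/-- The definite form on the divisor classes. -/
theorem form_pos (h : IsNumRing n gr deg D) (hH : IsHodgeIndexUpTo m n gr deg D) (hm : 1 ≤ m)
    (hn : 2 ≤ n) {c : ℚ} (hc : 1 < c) {b f : R} (hb : b ∈ gr 1) (hf : f ∈ gr 0)
    (hbf : D ^ n * f = D ^ (n - 1) * b)
    (h0 : -deg (b * b * D ^ (n - 2)) + c * deg (f * f * D ^ n) = 0) : b = 0 := by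
  have hf0 : D ^ (n - 2 * 0 + 1) * f = 0 := h.ring.bound (by omega) (h.ring.pow_mul_mem _ hf)
  have hD : D ^ n = D ^ (n - 1) * D := by rw [← pow_succ, show n - 1 + 1 = n by omega]
  have hD' : D ^ (n - 1) = D ^ (n - 2) * D := by rw [← pow_succ, show n - 2 + 1 = n - 1 by omega]
  have hp : D ^ (n - 1) * (b - D * f) = 0 := by
    rw [mul_sub, ← hbf, hD]
    ring
  have hmem : b - D * f ∈ gr 1 := by
    refine Submodule.sub_mem _ hb ?_
    have := h.ring.mul_mem h.ring.divisor hf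
    rwa [add_zero] at this
  have e1 : deg (b * b * D ^ (n - 2)) = deg ((b - D * f) * (b - D * f) * D ^ (n - 2)) +
      deg (f * f * D ^ n) := by
    have e2 : b * b * D ^ (n - 2) = (b - D * f) * (b - D * f) * D ^ (n - 2) + f * f * D ^ n +
        2 * f * (D ^ (n - 1) * (b - D * f)) := by
      rw [hD, hD']
      ring
    rw [e2, hp, mul_zero, add_zero, map_add]
  have e3 : 0 ≤ deg (f * f * D ^ n) := by
    by_cases hz : f = 0
    · rw [hz, zero_mul, zero_mul, map_zero]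
    · have := hH 0 (Nat.zero_le _) (Nat.zero_le _) f hf hf0 hz
      rw [pow_zero, one_mul, mul_zero, Nat.sub_zero] at this
      exact this.le
  have e4 : b - D * f = 0 := by
    by_contra hne
    have := hH 1 hm (by omega) _ hmem (by rwa [show n - 2 * 1 + 1 = n - 1 by omega]) hne
    rw [mul_one, pow_one] at this
    nlinarith
  have e5 : f = 0 := by
    by_contra hne
    have := hH 0 (Nat.zero_le _) (Nat.zero_le _) f hf hf0 hne
    rw [pow_zero, one_mul, mul_zero, Nat.sub_zero] at this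
    rw [e4, zero_mul, zero_mul, map_zero, zero_add] at e1
    nlinarith
  rw [e5, mul_zero, sub_zero] at e4
  exact e4

end one

section two

variable {R₁ R₂ R₃ : Type u} [CommRing R₁] [Algebra ℚ R₁] [CommRing R₂] [Algebra ℚ R₂]
  [CommRing R₃] [Algebra ℚ R₃]

variable [Module.Finite ℚ R₁] [Module.Finite ℚ R₂] [Module.Finite ℚ R₃] {m k : ℕ}
  {gr₁ : ℕ → Submodule ℚ R₁} {deg₁ : R₁ →ₗ[ℚ] ℚ} {D₁ : R₁}
  {gr₂ : ℕ → Submodule ℚ R₂} {deg₂ : R₂ →ₗ[ℚ] ℚ} {D₂ : R₂}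
  {gr₃ : ℕ → Submodule ℚ R₃} {deg₃ : R₃ →ₗ[ℚ] ℚ} {D₃ : R₃}
  {ρ₁ : R₁ →ₗ[ℚ] R₂} {ρ₂ : R₂ →ₗ[ℚ] R₃} {γ₁ : R₂ →ₗ[ℚ] R₁} {γ₂ : R₃ →ₗ[ℚ] R₂}
  (n₁ : IsNumRing (k + 2) gr₁ deg₁ D₁) (n₂ : IsNumRing (k + 1) gr₂ deg₂ D₂)
  (h₁ : IsLHR (k + 2) gr₁ deg₁ D₁) (h₂ : IsLHR (k + 1) gr₂ deg₂ D₂)
  (hS : IsStrata gr₁ deg₁ D₁ gr₂ deg₂ D₂ gr₃ deg₃ D₃ ρ₁ ρ₂ γ₁ γ₂)

include n₁ hS in
theorem gysin_restrict_gysin {i : ℕ} {y : R₂} (hy : y ∈ gr₂ i) : γ₁ (ρ₁ (γ₁ y)) = 0 := by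
  have h3 := congrArg γ₁ (hS.restrict_gysin y)
  have h4 : γ₁ (γ₂ (ρ₂ y)) = 0 := by
    refine eq_zero_of_deg n₁ (i := i + 1 + 1) ?_ fun x => ?_
    · exact hS.gysin_mem₁ _ _ (hS.gysin_mem₂ _ _ (hS.restrict_mem₂ _ _ hy))
    · rw [hS.adjoint₁, hS.adjoint₂, hS.restrict_restrict, zero_mul, map_zero]
  rwa [map_add, h4, add_zero, map_zero] at h3

include h₁ h₂ hS n₁ in
/-- **The lemma on `γ₁ ρ₁`**. -/
theorem exists_closed {r : ℕ} {w : R₁} (hw : w ∈ gr₁ r) (h0 : γ₁ (ρ₁ w) = 0) :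
    ∃ u : R₂, ρ₁ (w - γ₁ u) = 0 := by
  obtain ⟨y, hy, g, hg, hy0, he⟩ := exists_lap h₁ h₂ hS hw
  have hyρ := (harmonic h₁ h₂ hS hy0).1
  have hργρ : ∀ x, ρ₁ (γ₁ (ρ₁ x)) = 0 := by
    intro x
    have h3 := hS.restrict_gysin (ρ₁ x)
    rwa [hS.restrict_restrict, map_zero, add_zero] at h3
  set q := γ₁ (ρ₁ g) with hq
  have hu : ∃ s, adjOp h₁ h₂ 0 ρ₁ g - Lam h₂ (ρ₁ g) ∈ gr₂ s := by
    rw [adjOp_apply]
    rcases r with _ | r
    · rw [Lam_gr_zero h₁ hg, map_zero, Lam_gr_zero h₂ (hS.restrict_mem₁ 0 g hg)]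
      exact ⟨0, by simp⟩
    · refine ⟨r, Submodule.sub_mem _ (Submodule.smul_mem _ _ (Submodule.sub_mem _ ?_ ?_)) ?_⟩
      · exact Lam_mem h₂ (hS.restrict_mem₁ _ g hg)
      · exact hS.restrict_mem₁ _ _ (Lam_mem h₁ hg)
      · exact Lam_mem h₂ (hS.restrict_mem₁ _ g hg)
  obtain ⟨s, hs⟩ := hu
  have e1 : ρ₁ w = adjOp h₁ h₂ 0 ρ₁ q + ρ₁ (γ₁ (adjOp h₁ h₂ 0 ρ₁ g - Lam h₂ (ρ₁ g))) := by
    rw [he, map_add, hyρ, zero_add, Lap_apply, map_add, adjOp_apply h₂ h₁, adjOp_apply h₁ h₂ 0 ρ₁ q,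
      hργρ, map_zero, zero_sub, pow_zero, pow_one, neg_neg, one_smul, neg_one_smul, neg_neg,
      map_sub ρ₁, map_sub γ₁, map_sub ρ₁]
    abel
  have e2 : γ₁ (adjOp h₁ h₂ 0 ρ₁ q) = 0 := by
    rw [e1, map_add, gysin_restrict_gysin n₁ hS hs, add_zero] at h0
    exact h0
  have e3 : adjOp h₁ h₂ 0 ρ₁ q = 0 := by
    refine ip_eq_zero h₂ ?_
    rw [← adj_gysin₁ h₁ h₂ hS, e2]
    unfold ip
    rw [zero_mul, map_zero]
  refine ⟨adjOp h₁ h₂ 0 ρ₁ g - Lam h₂ (ρ₁ g), ?_⟩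
  rw [map_sub, e1, e3, zero_add, sub_self]

include n₁ n₂ hS in
/-- **The lemma on the image of `γ₁ ρ₁`.** A closed element that is orthogonal to the closed elements is in
the image of `γ₁ ρ₁`. -/
theorem exists_vertical {i r : ℕ} (hir : i + r = k + 2)
    (hkey : ∀ w ∈ gr₁ r, γ₁ (ρ₁ w) = 0 → ∃ u : R₂, ρ₁ (w - γ₁ u) = 0) {a : R₁} (ha : a ∈ gr₁ i)
    (hc : ρ₁ a = 0) (ho : ∀ y, ρ₁ y = 0 → deg₁ (a * y) = 0) : (i = 0 ∧ a = 0) ∨
      ∃ j, i = j + 1 ∧ ∃ x ∈ gr₁ j, a = γ₁ (ρ₁ x) := by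
  have hkey2 : ∀ w ∈ gr₁ r, γ₁ (ρ₁ w) = 0 → deg₁ (a * w) = 0 := by
    intro w hw h0
    obtain ⟨u, hu⟩ := hkey w hw h0
    have h4 := ho _ hu
    rw [mul_sub, map_sub, hS.adjoint₁, hc, zero_mul, map_zero, sub_zero] at h4
    exact h4
  rcases i with _ | j
  · left
    refine ⟨rfl, n₁.nondeg 0 (Nat.zero_le _) a ha fun w hw => hkey2 w ?_ ?_⟩
    · rwa [show r = k + 2 - 0 by omega]
    · rw [n₂.ring.bound (i := k + 2) (by omega) (hS.restrict_mem₁ _ w hw), map_zero]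
  · right
    let f : gr₁ r →ₗ[ℚ] Module.Dual ℚ (gr₁ j) :=
      LinearMap.mk₂ ℚ (fun w x => deg₁ (γ₁ (ρ₁ (x : R₁)) * w))
        (by intro a b c; simp only [Submodule.coe_add, mul_add, map_add])
        (by intro c a b; simp only [Submodule.coe_smul, mul_smul_comm, map_smul])
        (by intro a b c; simp only [Submodule.coe_add, add_mul, map_add])
        (by intro c a b; simp only [Submodule.coe_smul, smul_mul_assoc, map_smul])
    let ψ : Module.Dual ℚ (gr₁ r) := (deg₁ ∘ₗ LinearMap.mulLeft ℚ a).domRestrict (gr₁ r)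
    have hadj : ∀ x w, deg₁ (γ₁ (ρ₁ x) * w) = deg₁ (γ₁ (ρ₁ w) * x) := by
      intro x w
      rw [mul_comm, hS.adjoint₁, mul_comm _ x, hS.adjoint₁, mul_comm]
    obtain ⟨x, hx⟩ := exists_rep f ψ (fun w hw => by
      refine hkey2 w w.2 ?_
      have h6 : γ₁ (ρ₁ (w : R₁)) ∈ gr₁ (r + 1) := hS.gysin_mem₁ _ _ (hS.restrict_mem₁ _ _ w.2)
      refine n₁.nondeg (r + 1) (by omega) _ h6 fun y hy => ?_
      rw [show k + 2 - (r + 1) = j by omega] at hy
      rw [← hadj]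
      exact LinearMap.congr_fun hw ⟨y, hy⟩)
    refine ⟨j, rfl, x, x.2, ?_⟩
    have h7 : a - γ₁ (ρ₁ (x : R₁)) ∈ gr₁ (j + 1) :=
      Submodule.sub_mem _ ha (hS.gysin_mem₁ _ _ (hS.restrict_mem₁ _ _ x.2))
    refine sub_eq_zero.1 (n₁.nondeg (j + 1) (by omega) _ h7 fun w hw => ?_)
    rw [show k + 2 - (j + 1) = r by omega] at hw
    have h8 : deg₁ (a * w) = deg₁ (γ₁ (ρ₁ (x : R₁)) * w) := hx ⟨w, hw⟩
    rw [sub_mul, map_sub, h8, sub_self]

include n₁ n₂ hS in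
/-- The case of elements of degree zero. -/
theorem exists_closed_zero (H₂ : IsHodgeIndexUpTo m (k + 1) gr₂ deg₂ D₂) {w : R₁}
    (hw : w ∈ gr₁ 0) (h0 : γ₁ (ρ₁ w) = 0) : ρ₁ w = 0 := by
  have hmulρ : ∀ b z, ρ₁ (D₁ ^ b * z) = D₂ ^ b * ρ₁ z := by
    intro b z
    induction b with
    | zero => simp
    | succ b ih => rw [pow_succ', mul_assoc, hS.restrict_mul₁, ih, pow_succ', mul_assoc]
  by_contra hne
  have h3 := H₂ 0 (Nat.zero_le _) (Nat.zero_le _) (ρ₁ w) (hS.restrict_mem₁ _ w hw)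
    (n₂.ring.bound (by omega) (n₂.ring.pow_mul_mem _ (hS.restrict_mem₁ _ w hw))) hne
  have h4 : deg₂ (ρ₁ w * ρ₁ w * D₂ ^ (k + 1 - 2 * 0)) = 0 := by
    rw [mul_assoc, mul_comm (ρ₁ w) (D₂ ^ _), ← hmulρ, mul_comm (ρ₁ w), ← hS.adjoint₁, h0, mul_zero,
      map_zero]
  rw [h4, mul_zero] at h3
  exact lt_irrefl _ h3

end two

end Pool.Agent.X268.LF
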