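import Pool.Agent.X268.LF.Main

/-!
# Divisor classes on the components
-/

set_option autoImplicit false
set_option linter.unusedSectionVars false

namespace Pool.Agent.X268.LF

open Pool.Agent.X268.SR Module

universe u v

variable {R₁ R₂ R₃ : Type u} [CommRing R₁] [Algebra ℚ R₁] [CommRing R₂] [Algebra ℚ R₂]
  [CommRing R₃] [Algebra ℚ R₃]

variable [Module.Finite ℚ R₁] [Module.Finite ℚ R₂] [Module.Finite ℚ R₃] {m l : ℕ}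
  {gr₁ : ℕ → Submodule ℚ R₁} {deg₁ : R₁ →ₗ[ℚ] ℚ} {D₁ : R₁}
  {gr₂ : ℕ → Submodule ℚ R₂} {deg₂ : R₂ →ₗ[ℚ] ℚ} {D₂ : R₂}
  {gr₃ : ℕ → Submodule ℚ R₃} {deg₃ : R₃ →ₗ[ℚ] ℚ} {D₃ : R₃}
  {ρ₁ : R₁ →ₗ[ℚ] R₂} {ρ₂ : R₂ →ₗ[ℚ] R₃} {γ₁ : R₂ →ₗ[ℚ] R₁} {γ₂ : R₃ →ₗ[ℚ] R₂}

/-- The case of elements of degree one. -/
theorem exists_closed_one (n₁ : IsNumRing (l + 1 + 2) gr₁ deg₁ D₁)
    (n₂ : IsNumRing (l + 1 + 1) gr₂ deg₂ D₂)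
    (hS : IsStrata gr₁ deg₁ D₁ gr₂ deg₂ D₂ gr₃ deg₃ D₃ ρ₁ ρ₂ γ₁ γ₂) (hm : 1 ≤ m)
    (H₁ : IsHodgeIndexUpTo m (l + 1 + 2) gr₁ deg₁ D₁)
    (H₂ : IsHodgeIndexUpTo m (l + 1 + 1) gr₂ deg₂ D₂) {w : R₁}
    (hw : w ∈ gr₁ 1) (h0 : γ₁ (ρ₁ w) = 0) : ∃ u : R₂, ρ₁ (w - γ₁ u) = 0 := by
  have hmulγ : ∀ b z, γ₁ (D₂ ^ b * z) = D₁ ^ b * γ₁ z := by
    intro b z
    induction b with
    | zero => simp
    | succ b ih => rw [pow_succ', mul_assoc, hS.gysin_mul₁, ih, pow_succ', mul_assoc]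
  have hmulρ : ∀ b z, ρ₁ (D₁ ^ b * z) = D₂ ^ b * ρ₁ z := by
    intro b z
    induction b with
    | zero => simp
    | succ b ih => rw [pow_succ', mul_assoc, hS.restrict_mul₁, ih, pow_succ', mul_assoc]
  obtain ⟨L, hL⟩ := exists_L n₁ H₁ (by omega)
  let Γ : gr₂ 0 →ₗ[ℚ] gr₁ 1 := γ₁.restrict fun x hx => hS.gysin_mem₁ 0 x hx
  set c : ℚ := ((l : ℚ) + 3) / (l + 2) with hc
  have hl : (0 : ℚ) < (l : ℚ) + 2 := by positivity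
  have hc1 : 1 < c := by
    rw [hc, lt_div_iff₀ hl]
    linarith
  let f : gr₂ 0 →ₗ[ℚ] Module.Dual ℚ (gr₂ 0) :=
    LinearMap.mk₂ ℚ (fun u h => -deg₁ ((Γ u : R₁) * (Γ h : R₁) * D₁ ^ (l + 1)) +
        c * deg₁ (L (Γ u) * L (Γ h) * D₁ ^ (l + 3)))
      (by intro a b c; simp only [map_add, Submodule.coe_add, add_mul]; ring)
      (by intro c a b; simp only [map_smul, Submodule.coe_smul, smul_mul_assoc, smul_eq_mul]; ring)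
      (by intro a b c; simp only [map_add, Submodule.coe_add, mul_add, add_mul]; ring)
      (by intro c a b; simp only [map_smul, Submodule.coe_smul, smul_mul_assoc, mul_smul_comm,
            smul_eq_mul]; ring)
  let ψ : Module.Dual ℚ (gr₂ 0) := deg₁ ∘ₗ LinearMap.mulLeft ℚ (w * D₁ ^ (l + 1)) ∘ₗ
    (gr₁ 1).subtype ∘ₗ Γ
  obtain ⟨u, hu⟩ := exists_rep f ψ (fun v hv => by
    have h3 : Γ v = 0 := by
      refine Subtype.ext (form_pos n₁ H₁ hm (by omega) hc1 (Γ v).2 (hL (Γ v)).1 (hL (Γ v)).2 ?_)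
      exact LinearMap.congr_fun hv v
    change deg₁ (w * D₁ ^ (l + 1) * (Γ v : R₁)) = 0
    rw [h3, Submodule.coe_zero, mul_zero, map_zero])
  set f₀ := L (Γ u) with hf₀
  have hf₀m : f₀ ∈ gr₁ 0 := (hL (Γ u)).1
  have hw₁ : γ₁ (ρ₁ (w + γ₁ (u : R₂))) = 0 := by
    rw [map_add, map_add, h0, zero_add]
    exact gysin_restrict_gysin n₁ hS u.2
  -- the equation
  have e1 : ∀ h ∈ gr₂ 0, deg₂ (ρ₁ (w + γ₁ (u : R₂)) * (D₂ ^ (l + 1) * h)) =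
      c * deg₂ (ρ₁ f₀ * (D₂ ^ (l + 2) * h)) := by
    intro h hh
    rw [← hS.adjoint₁, ← hS.adjoint₁, hmulγ, hmulγ]
    have h4 : deg₁ (w * D₁ ^ (l + 1) * γ₁ h) = -deg₁ (γ₁ h * γ₁ (u : R₂) * D₁ ^ (l + 1)) +
        c * deg₁ (L (Γ ⟨h, hh⟩) * f₀ * D₁ ^ (l + 3)) := hu ⟨h, hh⟩
    have h5 : D₁ ^ (l + 3) * L (Γ ⟨h, hh⟩) = D₁ ^ (l + 2) * γ₁ h := (hL (Γ ⟨h, hh⟩)).2
    have h6 : L (Γ ⟨h, hh⟩) * f₀ * D₁ ^ (l + 3) = f₀ * (D₁ ^ (l + 2) * γ₁ h) := by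
      rw [← h5]
      ring
    have h7 : (w + γ₁ (u : R₂)) * (D₁ ^ (l + 1) * γ₁ h) = w * D₁ ^ (l + 1) * γ₁ h +
        γ₁ h * γ₁ (u : R₂) * D₁ ^ (l + 1) := by ring
    rw [h7, map_add, h4, h6]
    ring
  have e2 : D₂ ^ (l + 1) * ρ₁ (w + γ₁ (u : R₂)) = c • (D₂ ^ (l + 2) * ρ₁ f₀) := by
    have hmem : D₂ ^ (l + 1) * ρ₁ (w + γ₁ (u : R₂)) - c • (D₂ ^ (l + 2) * ρ₁ f₀) ∈
        gr₂ (l + 1 + 1) := by
      refine Submodule.sub_mem _ ?_ (Submodule.smul_mem _ _ ?_)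
      · have := n₂.ring.pow_mul_mem (l + 1) (hS.restrict_mem₁ 1 _
          (Submodule.add_mem _ hw (hS.gysin_mem₁ 0 _ u.2)))
        rwa [show 1 + (l + 1) = l + 1 + 1 by omega] at this
      · have := n₂.ring.pow_mul_mem (l + 2) (hS.restrict_mem₁ 0 _ hf₀m)
        rwa [show 0 + (l + 2) = l + 1 + 1 by omega] at this
    refine sub_eq_zero.1 (n₂.nondeg _ le_rfl _ hmem fun h hh => ?_)
    rw [Nat.sub_self] at hh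
    have h4 := e1 h hh
    rw [sub_mul, map_sub, smul_mul_assoc, map_smul, smul_eq_mul,
      show D₂ ^ (l + 1) * ρ₁ (w + γ₁ (u : R₂)) * h = ρ₁ (w + γ₁ (u : R₂)) * (D₂ ^ (l + 1) * h) by ring,
      show D₂ ^ (l + 2) * ρ₁ f₀ * h = ρ₁ f₀ * (D₂ ^ (l + 2) * h) by ring, h4, sub_self]
  have e3 : ρ₁ f₀ = 0 := by
    by_contra hne
    have h4 := H₂ 0 (Nat.zero_le _) (Nat.zero_le _) _ (hS.restrict_mem₁ 0 _ hf₀m)
      (n₂.ring.bound (by omega) (n₂.ring.pow_mul_mem _ (hS.restrict_mem₁ 0 _ hf₀m))) hne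
    have h5 : c * deg₂ (ρ₁ f₀ * ρ₁ f₀ * D₂ ^ (l + 1 + 1 - 2 * 0)) = 0 := by
      have h6 : c • (ρ₁ f₀ * ρ₁ f₀ * D₂ ^ (l + 1 + 1 - 2 * 0)) =
          ρ₁ f₀ * (D₂ ^ (l + 1) * ρ₁ (w + γ₁ (u : R₂))) := by
        rw [e2, mul_smul_comm, show l + 1 + 1 - 2 * 0 = l + 2 by omega]
        congr 1
        ring
      have h7 := congrArg deg₂ h6
      rw [map_smul, smul_eq_mul] at h7
      rw [h7, show ρ₁ f₀ * (D₂ ^ (l + 1) * ρ₁ (w + γ₁ (u : R₂))) =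
        (D₂ ^ (l + 1) * ρ₁ f₀) * ρ₁ (w + γ₁ (u : R₂)) by ring, ← hmulρ, ← hS.adjoint₁, hw₁, mul_zero,
        map_zero]
    rcases mul_eq_zero.1 h5 with h6 | h6
    · linarith
    · rw [h6, mul_zero] at h4
      exact lt_irrefl _ h4
  have e4 : ρ₁ (w + γ₁ (u : R₂)) = 0 := by
    by_contra hne
    have h4 := H₂ 1 hm (by omega) _ (hS.restrict_mem₁ 1 _
      (Submodule.add_mem _ hw (hS.gysin_mem₁ 0 _ u.2)))
      (by rw [show l + 1 + 1 - 2 * 1 + 1 = l + 1 by omega, e2, e3, mul_zero, smul_zero]) hne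
    have h5 : ρ₁ (w + γ₁ (u : R₂)) * ρ₁ (w + γ₁ (u : R₂)) * D₂ ^ (l + 1 + 1 - 2 * 1) =
        (D₂ ^ (l + 1 + 1 - 2 * 1) * ρ₁ (w + γ₁ (u : R₂))) * ρ₁ (w + γ₁ (u : R₂)) := by ring
    rw [h5, ← hmulρ, ← hS.adjoint₁, hw₁, mul_zero, map_zero, mul_zero] at h4
    exact lt_irrefl _ h4
  refine ⟨-(u : R₂), ?_⟩
  rw [map_neg, sub_neg_eq_add]
  exact e4

end Pool.Agent.X268.LF
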